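import Mathlib
import Pool.Agent.H.MP_b0b663_an.h81.Core

set_option autoImplicit false

namespace Pool.Agent.Results.MP_b0b663_an.SymmetricKottman

universe u

/-- The symmetric Kottman constant: the supremum of all `σ` for which the closed unit ball contains a
sequence all of whose differences and sums of two distinct terms have norm at least `σ`. -/
noncomputable def symKottman (X : Type u) [NormedAddCommGroup X] : ℝ :=
  sSup {σ : ℝ | ∃ x : ℕ → X, (∀ n, ‖x n‖ ≤ 1) ∧ ∀ n m : ℕ, n ≠ m → σ ≤ ‖x n - x m‖ ∧ σ ≤ ‖x n + x m‖}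

theorem bddAbove_set (X : Type u) [NormedAddCommGroup X] :
    BddAbove {σ : ℝ | ∃ x : ℕ → X, (∀ n, ‖x n‖ ≤ 1) ∧
      ∀ n m : ℕ, n ≠ m → σ ≤ ‖x n - x m‖ ∧ σ ≤ ‖x n + x m‖} := by
  refine ⟨2, ?_⟩
  rintro σ ⟨x, hx, h⟩
  have h1 := (h 0 1 (by norm_num)).2
  have h2 := norm_add_le (x 0) (x 1)
  linarith [hx 0, hx 1]

/-- A real or complex Banach space which is reflexive as a real space is reflexive. -/
theorem surjective_of_real (𝕜 : Type) [RCLike 𝕜] (X : Type u) [NormedAddCommGroup X] [NormedSpace 𝕜 X]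
    [NormedSpace ℝ X] [IsScalarTower ℝ 𝕜 X]
    (h : Function.Surjective (NormedSpace.inclusionInDoubleDual ℝ X)) :
    Function.Surjective (NormedSpace.inclusionInDoubleDual 𝕜 X) := by
  intro Φ
  let e : StrongDual ℝ X ≃ₗᵢ[ℝ] StrongDual 𝕜 X := StrongDual.extendRCLikeₗᵢ
  let φ : StrongDual ℝ (StrongDual ℝ X) :=
    (RCLike.reCLM.comp (Φ.restrictScalars ℝ)).comp (e.toContinuousLinearEquiv : StrongDual ℝ X →L[ℝ] StrongDual 𝕜 X)
  obtain ⟨x, hx⟩ := h φ
  refine ⟨x, ?_⟩
  have hre : ∀ g : StrongDual 𝕜 X, RCLike.re (g x) = RCLike.re (Φ g) := by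
    intro g
    have h1 := congrArg (fun F : StrongDual ℝ (StrongDual ℝ X) => F (e.symm g)) hx
    have h2 : (NormedSpace.inclusionInDoubleDual ℝ X x) (e.symm g) = (e.symm g) x := rfl
    have h3 : φ (e.symm g) = RCLike.re (Φ (e (e.symm g))) := rfl
    rw [e.apply_symm_apply] at h3
    have h4 : RCLike.re ((e (e.symm g)) x) = (e.symm g) x :=
      StrongDual.re_extendRCLike_apply (e.symm g) x
    rw [e.apply_symm_apply] at h4
    rw [h4, ← h3, ← h2]
    exact h1
  ext g
  show g x = Φ g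
  apply RCLike.ext (hre g)
  have h5 := hre ((RCLike.I : 𝕜) • g)
  have h6 : ((RCLike.I : 𝕜) • g) x = RCLike.I * g x := rfl
  rw [h6, map_smul, smul_eq_mul, RCLike.I_mul_re, RCLike.I_mul_re] at h5
  linarith

/-- The symmetric Kottman constant of a non-reflexive real or complex Banach space is at least `117/100`. -/
theorem result (𝕜 : Type) [RCLike 𝕜] (X : Type u) [NormedAddCommGroup X] [NormedSpace 𝕜 X] [CompleteSpace X]
    (hX : ¬ Function.Surjective (NormedSpace.inclusionInDoubleDual 𝕜 X)) :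
    117 / 100 ≤ symKottman X := by
  letI : NormedSpace ℝ X := NormedSpace.restrictScalars ℝ 𝕜 X
  haveI : IsScalarTower ℝ 𝕜 X := RestrictScalars.isScalarTower ℝ 𝕜 X
  have hX' : ¬ Function.Surjective (NormedSpace.inclusionInDoubleDual ℝ X) :=
    fun h => hX (surjective_of_real 𝕜 X h)
  apply le_of_forall_lt
  intro d hd
  obtain ⟨d', hd1, hd2⟩ := exists_between hd
  obtain ⟨x, hx1, hx2⟩ := H.MP_b0b663_an.h81.main hX' d' hd2
  refine hd1.trans_le (le_csSup (bddAbove_set X) ⟨x, hx1, fun n m hnm => ?_⟩)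
  exact ⟨(hx2 n m hnm).2, (hx2 n m hnm).1⟩

end Pool.Agent.Results.MP_b0b663_an.SymmetricKottman
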